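import Pool.Agent.H78.Star.Red

/-!
# Star `k`-colouring is NP-complete for `(2k - 4)`-regular graphs, for every `k ≥ 5`

Inputs are graphs with vertices `0, ..., n - 1`, given as words over `{0, 1}`: the adjacency
matrix, row by row (`matWord`). `InP`, `InNP` are the classes P and NP over Mathlib's
`TM2ComputableInPolyTime`. `NPCompleteOn D Q` says that the decision problem `Q` restricted to
the inputs in `D` is NP-complete under polynomial-time many-one reductions.
-/

set_option autoImplicit false

namespace Pool.Agent.Results.MP_b4e77d_lc.StarColouringNPC

open Pool.Agent.H78.NP Pool.Agent.H78.Star Turing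

/-- The decision problem `Q`, restricted to the inputs in `D`, is NP-complete: `D` is in P, the
yes-inputs in `D` form a set in NP, and every `L` in NP reduces to the restricted problem by a
polynomial-time computable map from words to words, all of whose values lie in `D`. -/
def NPCompleteOn (D Q : Set (List Bool)) : Prop :=
  InP D ∧ InNP (D ∩ Q) ∧
    ∀ L : Set (List Bool), InNP L → ∃ f : List Bool → List Bool,
      Nonempty (TM2ComputableInPolyTime (id : List Bool → List Bool)
        (id : List Bool → List Bool) f) ∧
      ∀ x, f x ∈ D ∧ (x ∈ L ↔ f x ∈ Q)

/-- For every `k ≥ 5`, `k`-Star Colourability is NP-complete for `(2k - 4)`-regular graphs. -/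
theorem result (k : ℕ) (hk : 5 ≤ k) :
    NPCompleteOn (regularWords (2 * k - 4)) (starWords k) :=
  ⟨inP_regularWords _, inNP_star k _ (by omega), fun L hL => hard hk L hL⟩

end Pool.Agent.Results.MP_b4e77d_lc.StarColouringNPC
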